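import Pool.Agent.W8.KU.Stm

/-!
Project KU: Laplace-Young law for the example (task KU-LY).
-/

open scoped Topology ContDiff
open MeasureTheory Metric

namespace Pool.Agent.W804.KU

open Pool.Agent.W8.KU

noncomputable section

theorem norm_P0 : ‖P0‖ = 20 := by
  unfold P0
  rw [EuclideanSpace.norm_single]
  norm_num

theorem ev_a {x : E3} (hx : x ∈ sphere P0 2) :
    ∀ᶠ y in 𝓝 x, y ∈ cell Om (some 0) → dist y P0 < 2 := by
  filter_upwards [ball_mem_nhds x one_pos] with y hy hc
  rcases hc with hc | hc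
  · exact hc
  · exfalso
    rw [mem_ball] at hy hc
    rw [mem_sphere] at hx
    have h1 : dist (0 : E3) P0 = 20 := by rw [dist_zero_left, norm_P0]
    have h2 := dist_triangle (0 : E3) y P0
    have h3 := dist_triangle y x P0
    rw [dist_comm (0 : E3) y] at h2
    linarith

theorem ev_b {x : E3} (_hx : x ∈ sphere (0 : E3) 6) :
    ∀ᶠ y in 𝓝 x, y ∈ cell Om (some 1) → dist y 0 < 6 := by
  filter_upwards with y hc
  exact hc.1

theorem ev_c {x : E3} (hx : x ∈ sphere (0 : E3) 3) :
    ∀ᶠ y in 𝓝 x, y ∈ cell Om (some 0) → dist y 0 < 3 := by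
  filter_upwards [ball_mem_nhds x one_pos] with y hy hc
  rcases hc with hc | hc
  · exfalso
    rw [mem_ball] at hy hc
    rw [mem_sphere] at hx
    have h1 : dist (0 : E3) P0 = 20 := by rw [dist_zero_left, norm_P0]
    have h2 := dist_triangle (0 : E3) y P0
    have h3 := dist_triangle y x 0
    rw [dist_comm (0 : E3) y] at h2
    linarith
  · exact hc

/-- the pressures -/
def pp : Option (Fin 2) → ℝ
  | none => 0
  | some i => if i = 0 then 1 else 1 / 3

theorem pp0 : pp (some 0) = 1 := by simp [pp]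

theorem pp1 : pp (some 1) = 1 / 3 := by simp [pp]

theorem cases6 {Q : Option (Fin 2) → Option (Fin 2) → Prop}
    (h1 : Q (some 0) none) (h2 : Q none (some 0)) (h3 : Q (some 1) none) (h4 : Q none (some 1))
    (h5 : Q (some 0) (some 1)) (h6 : Q (some 1) (some 0)) : ∀ i j, i ≠ j → Q i j := by
  intro i j hij
  rcases i with _ | i
  · rcases j with _ | j
    · exact absurd rfl hij
    · fin_cases j
      · exact h2
      · exact h4
  · rcases j with _ | j
    · fin_cases i
      · exact h1
      · exact h3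
    · fin_cases i
      · fin_cases j
        · exact absurd rfl hij
        · exact h5
      · fin_cases j
        · exact h6
        · exact absurd rfl hij

theorem LY_proof : LY := by
  intro _ hI
  obtain ⟨i1, i2, i3, i4, i5, i6, _⟩ := hI
  constructor
  · refine cases6 ?_ ?_ ?_ ?_ ?_ ?_
    · exact Or.inl ⟨P0, 2, by norm_num, i1.le⟩
    · exact Or.inl ⟨P0, 2, by norm_num, i2.le⟩
    · exact Or.inl ⟨0, 6, by norm_num, i3.le⟩
    · exact Or.inl ⟨0, 6, by norm_num, i4.le⟩
    · exact Or.inl ⟨0, 3, by norm_num, i5.le⟩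
    · exact Or.inl ⟨0, 3, by norm_num, i6.le⟩
  · refine ⟨pp, rfl, ?_⟩
    refine cases6 ?_ ?_ ?_ ?_ ?_ ?_
    · intro _
      refine ⟨P0, 2, by norm_num, i1.le, Or.inl ⟨?_, ?_⟩⟩
      · rw [pp0]; simp only [pp]; norm_num
      · intro x hx
        exact ev_a (i1 ▸ hx)
    · intro _
      refine ⟨P0, 2, by norm_num, i2.le, Or.inr ⟨?_, ?_⟩⟩
      · rw [pp0]; simp only [pp]; norm_num
      · intro x hx
        exact ev_a (i2 ▸ hx)
    · intro _
      refine ⟨0, 6, by norm_num, i3.le, Or.inl ⟨?_, ?_⟩⟩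
      · rw [pp1]; simp only [pp]; norm_num
      · intro x hx
        exact ev_b (i3 ▸ hx)
    · intro _
      refine ⟨0, 6, by norm_num, i4.le, Or.inr ⟨?_, ?_⟩⟩
      · rw [pp1]; simp only [pp]; norm_num
      · intro x hx
        exact ev_b (i4 ▸ hx)
    · intro _
      refine ⟨0, 3, by norm_num, i5.le, Or.inl ⟨?_, ?_⟩⟩
      · rw [pp0, pp1]; norm_num
      · intro x hx
        exact ev_c (i5 ▸ hx)
    · intro _
      refine ⟨0, 3, by norm_num, i6.le, Or.inr ⟨?_, ?_⟩⟩
      · rw [pp0, pp1]; norm_num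
      · intro x hx
        exact ev_c (i6 ▸ hx)

end

end Pool.Agent.W804.KU
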